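import Pool.Agent.H.MP_eed1a0_lc.B

set_option autoImplicit false

namespace Pool.Agent.Results.MP_eed1a0_lc.No

open Finset Filter Pool.Agent.H.MP_d04dff_lc Pool.Agent.Lib.helper21.KC Pool.Agent.H.MP_eed1a0_lc
open Computable

/-- The complexity profile of a triple. -/
def prof (C : List (List Bool) → ℕ) (x₁ x₂ y : List Bool) : List ℕ :=
  [C [x₁], C [x₂], C [y], C [x₁, x₂], C [x₁, y], C [x₂, y], C [x₁, x₂, y]]

theorem big (D : ℕ) {ε : ℝ} (h : 0 < ε) : ∃ n, 1 ≤ n ∧ (2 : ℝ) ^ (D * lg n) < ε * 2 ^ n := by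
  obtain ⟨n, h1, h2⟩ := ((((tendsto_pow_const_div_const_pow_of_one_lt D (r := 2)
    one_lt_two).const_mul (2 ^ D)).eventually (gt_mem_nhds (by simpa using h))).and
    (eventually_ge_atTop 1)).exists
  rw [← mul_div_assoc, div_lt_iff₀ (by positivity)] at h1
  refine ⟨n, h2, lt_of_le_of_lt ?_ h1⟩
  have : 2 ^ lg n ≤ 2 * n := by
    rw [lg, pow_succ']
    exact Nat.mul_le_mul_left _ (Nat.pow_log_le_self 2 (by omega))
  rw [mul_comm D, pow_mul, ← mul_pow]
  exact pow_le_pow_left₀ (by positivity) (by exact_mod_cast this) _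

theorem ub {U : Str →. Str} (hU : Opt U) {G : ℕ × ℕ → Str} (hG : Computable G) :
    ∃ c, ∀ h m, m < 2 ^ (4 * h) → K U (G (h, m)) ≤ 4 * h + c * lg h := by
  obtain ⟨c, hc⟩ := hU.enumL (R := fun a u => ∃ m, m < 2 ^ (4 * a.getD 0 0) ∧
    u = G (a.getD 0 0, m)) (Sig.ex ((Sig.prim (Primrec.nat_lt.comp .snd (pow2.comp
      (Primrec.nat_mul.comp (.const 4) (gD (Primrec.fst.comp .fst) 0))))).and (Sig.graph hG
        ((gD (Primrec.fst.comp .fst) 0).pair .snd) (Primrec.snd.comp .fst)))) 1 4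
  refine ⟨c, fun h m hm => hc h [h] _ _ le_rfl (by simp; omega) (by omega) ⟨m, hm, rfl⟩ fun h1 => ?_⟩
  obtain ⟨F, h2, h3⟩ := h1.rel (q := fun m => m < 2 ^ (4 * h)) (fun u m => u = G (h, m))
    (fun u ⟨m, h1, h2⟩ => ⟨m, h2, h1⟩) fun _ _ _ _ _ h1 h2 => h1.trans h2.symm
  have := card_le_card (show F ⊆ range (2 ^ (4 * h)) from fun m hm => mem_range.2 (h3 m hm))
  rw [card_range] at this
  omega

def X (L : List ℕ) (h y i : ℕ) : Str := bin (2 * h) i ++ bin (2 * h) ((y + L.getD i 0) % 2 ^ (2 * h))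

theorem X_len (L : List ℕ) (h y i : ℕ) : (X L h y i).length = 4 * h := by
  simp only [X, List.length_append, bin_len]; ring

theorem X_inj (L : List ℕ) (h : ℕ) (y i y' i' : Fin (2 ^ (2 * h))) (e : X L h y i = X L h y' i') :
    y = y' ∧ i = i' := by
  obtain ⟨h1, h2⟩ := List.append_inj e (by rw [bin_len, bin_len])
  obtain rfl : i = i' := Fin.ext (bin_inj i.2 i'.2 h1)
  exact ⟨Fin.ext (Nat.ModEq.eq_of_lt_of_lt (Nat.ModEq.add_right_cancel' _ (bin_inj
    (Nat.mod_lt _ (by positivity)) (Nat.mod_lt _ (by positivity)) h2)) y.2 y'.2), rfl⟩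

theorem pairb {U : Str →. Str} (hU : Opt U) {e : List Str → Str} (he : Computable e)
    {L : ℕ → List ℕ} (hL : Computable L) : ∃ c, ∀ h (y i : Fin (2 ^ (2 * h))),
      K U (e [X (L h) h y i, bin (2 * h) y]) ≤ 4 * h + c * lg h := by
  have h1 : Primrec fun z : ℕ × ℕ => 2 * z.1 := Primrec.nat_double.comp .fst
  have h2 := Primrec.nat_div.comp Primrec.snd (pow2.comp h1)
  have h3 := Primrec.nat_mod.comp Primrec.snd (pow2.comp h1)
  have h4 : Computable fun z : ℕ × ℕ => X (L z.1) z.1 (z.2 / 2 ^ (2 * z.1)) (z.2 % 2 ^ (2 * z.1)) :=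
    Computable.list_append.comp (bin_prim.comp h1 h3).to_comp (bin_prim.to_comp.comp h1.to_comp
      (Primrec.nat_mod.to_comp.comp (Primrec.nat_add.to_comp.comp h2.to_comp
        ((Primrec.list_getD 0).to_comp.comp (hL.comp fst) h3.to_comp)) (pow2.comp h1).to_comp))
  obtain ⟨c, hc⟩ := ub hU (he.comp (list_cons.comp h4 (list_cons.comp
    (bin_prim.comp h1 h2).to_comp (const []))))
  refine ⟨c, fun h y i => ?_⟩
  have := hc h (i + 2 ^ (2 * h) * y) (by
    rw [show 4 * h = 2 * h + 2 * h by ring, pow_add]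
    nlinarith [y.2, i.2])
  simpa [Nat.add_mul_div_left, Nat.div_eq_of_lt i.2, Nat.mod_eq_of_lt i.2] using this

theorem result (U : List Bool →. List Bool) (hU : Opt U) (e : List (List Bool) → List Bool)
    (he : Computable e) (hi : Function.Injective e)
    (A : (List Bool × List Bool × List ℕ) × List Bool → List Bool) (hA : Computable A)
    (t : ℕ → ℕ) (ht : Computable t) (c δ : ℝ) (hδ : 0 < δ) :
    ∃ (n : ℕ) (x₁ x₂ y : List Bool), x₁.length + x₂.length + y.length = n ∧ 2 ≤ n ∧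
      (Set.ncard {r : Fin (t n) → Bool | List.Forall₂ (fun a b : ℕ => |(a : ℝ) - b| ≤
        c * Real.logb 2 n) (prof (fun l => K U (e l)) x₁ x₂ y) (prof (fun l => K U (e l)) x₁ x₂
          (A ((x₁, x₂, prof (fun l => K U (e l)) x₁ x₂ y), List.ofFn r)))} : ℝ) < δ * 2 ^ t n := by
  classical
  by_contra hc
  push Not at hc
  obtain ⟨c₀, h₀⟩ := hU.list he hi 3
  obtain ⟨b, hb⟩ : ∃ b : ℕ → ℕ, b = fun h => c₀ * (4 * h + 1) + 1 := ⟨_, rfl⟩
  have b1 : Primrec b := hb ▸ Primrec.succ.comp (Primrec.nat_mul.comp (.const _)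
    (Primrec.succ.comp (Primrec.nat_mul.comp (.const 4) .id)))
  have t1 : Computable fun h => t (10 * h) := ht.comp (cmul (const 10) .id)
  have t2 := pow2.to_comp.comp t1
  let f : ℕ → ℕ × ℕ × ℕ → ℕ → ℕ → Str := fun h k u w =>
    A ((bin (2 * h) k.1 ++ bin (2 * h) u, bin (2 * h) k.2.1 ++ bin (2 * h) w,
      digs (b h) 7 (k.2.2 / 2 ^ t (10 * h))), bin (t (10 * h)) (k.2.2 % 2 ^ t (10 * h)))
  have g0 : Primrec fun z : (ℕ × ℕ × ℕ × ℕ) × ℕ × ℕ => z.1.1 := Primrec.fst.comp .fst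
  have g1 := Primrec.nat_double.comp g0
  have g2 : Primrec fun z : (ℕ × ℕ × ℕ × ℕ) × ℕ × ℕ => z.1.2 := Primrec.snd.comp .fst
  have g3 := (Primrec.snd.comp (Primrec.snd.comp g2)).to_comp
  have g4 := Primrec.list_append.comp (bin_prim.comp g1 (Primrec.fst.comp g2))
    (bin_prim.comp g1 (Primrec.fst.comp .snd))
  have g5 := Primrec.list_append.comp (bin_prim.comp g1 (Primrec.fst.comp (Primrec.snd.comp g2)))
    (bin_prim.comp g1 (Primrec.snd.comp .snd))
  have g6 := (digs_prim 7).to_comp.comp (b1.comp g0).to_comp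
    (Primrec.nat_div.to_comp.comp g3 (t2.comp g0.to_comp))
  have g7 := bin_prim.to_comp.comp (t1.comp g0.to_comp)
    (Primrec.nat_mod.to_comp.comp g3 (t2.comp g0.to_comp))
  have hf : Computable fun z : (ℕ × ℕ × ℕ × ℕ) × ℕ × ℕ => f z.1.1 z.1.2 z.2.1 z.2.2 :=
    (hA.comp ((g4.to_comp.pair (g5.to_comp.pair g6)).pair g7)).of_eq fun _ => rfl
  have hN : Computable fun h => 2 ^ (2 * h) := (pow2.comp Primrec.nat_double).to_comp
  have hK : Computable fun h => b h ^ 7 * 2 ^ t (10 * h) := cmul (cpow b1.to_comp 7) t2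
  obtain ⟨l, l1, l2⟩ := found hN hK hf fun h => by positivity
  obtain ⟨c₁, h₁⟩ := pairb hU he (fst.comp l1)
  obtain ⟨c₂, h₂⟩ := pairb hU he (snd.comp l1)
  have g8 : Primrec fun z : (List ℕ × Str) × Str => z.1.1.getD 0 0 := gD (Primrec.fst.comp .fst) 0
  obtain ⟨w, w1, w2⟩ := ComputablePred.computable_iff.1 (Pool.Agent.Lib.helper21.CPred.clt
    (cmul (cpow (hN.comp fst) 4) (hK.comp fst))
    (cmul (pow2.to_comp.comp fst) (cntN_comp hN hK hf)))
  obtain ⟨c₃, h₃⟩ := hU.enumL (R := fun a u => ∃ z, true = w (a.getD 0 0, z) ∧ u = e [z])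
    (Sig.ex ((Sig.graph w1 (g8.pair .snd) (.const true)).and (Sig.graph he
      (Primrec.list_cons.comp .snd (.const [])) (Primrec.snd.comp .fst)))) 1 1
  obtain ⟨h, h1, h2⟩ := big (2 * (c₁ + c₂ + 12 * ⌈c⌉₊) + c₃ + 14 * (4 * c₀ + 2) + 10)
    (lt_min (pow_pos hδ 2) one_pos)
  have w3 : ∀ z, true = w (h, z) ↔ (2 ^ (2 * h)) ^ 4 * (b h ^ 7 * 2 ^ t (10 * h)) < 2 ^ h *
      cntN (fun h => 2 ^ (2 * h)) (fun h => b h ^ 7 * 2 ^ t (10 * h)) f h z := fun z =>
    eq_comm.trans (Eq.to_iff (congrFun w2 (h, z))).symm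
  have p1 := lg_pos h
  have p2 : (2 * (c₁ + c₂ + 12 * ⌈c⌉₊) + c₃ + 14 * (4 * c₀ + 2) + 10) * lg h < h := by
    have := h2.trans_le (mul_le_of_le_one_left (by positivity) (min_le_right _ _))
    exact (pow_lt_pow_iff_right₀ one_lt_two).1 this
  have p3 : ∀ x y : ℕ, |(x : ℝ) - y| ≤ c * Real.logb 2 (10 * h : ℕ) →
      x ≤ y + 12 * ⌈c⌉₊ * lg h ∧ y ≤ x + 12 * ⌈c⌉₊ * lg h := fun x y hxy => by
    have q1 : Real.logb 2 (10 * h : ℕ) ≤ (12 * lg h : ℕ) := by
      rw [Real.logb_le_iff_le_rpow one_lt_two (by positivity), Real.rpow_natCast]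
      have := (lin_lt 10 h).trans_le (Nat.pow_le_pow_right (by norm_num)
        (show 10 + lg h ≤ 12 * lg h by omega))
      exact_mod_cast (show 10 * h ≤ 2 ^ (12 * lg h) by omega)
    have q2 : 0 ≤ Real.logb 2 (10 * h : ℕ) :=
      Real.logb_nonneg one_lt_two (by exact_mod_cast (by omega))
    have q3 := hxy.trans ((mul_le_mul_of_nonneg_right (Nat.le_ceil c) q2).trans
      (mul_le_mul_of_nonneg_left q1 (by positivity)))
    rw [abs_le] at q3
    push_cast at q3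
    exact ⟨by exact_mod_cast (show (x : ℝ) ≤ y + 12 * ⌈c⌉₊ * lg h by linarith [q3.1, q3.2]),
      by exact_mod_cast (show (y : ℝ) ≤ x + 12 * ⌈c⌉₊ * lg h by linarith [q3.1, q3.2])⟩
  obtain ⟨L, hL⟩ : ∃ L, L = c₁ * lg h + c₂ * lg h + 12 * ⌈c⌉₊ * lg h := ⟨_, rfl⟩
  have key := count (Ω := Fin (b h ^ 7 * 2 ^ t (10 * h))) (X_inj (l h).1 h) (X_inj (l h).2 h)
    (G := fun x z => K U (e [x, z]) ≤ 4 * h + L) (g := 2 ^ (L + 1)) (by positivity)
    (fun q => hU.few (4 * h + L) ((q.rel (fun p u => u = e [p.1, p.2]) (fun p hp => ⟨_, rfl, hp⟩)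
      fun p p' u _ _ q1 q2 => by
        have := hi (q1.symm.trans q2)
        simp only [List.cons.injEq, and_true] at this
        exact Prod.ext this.1 this.2).mono (by
          rw [Fintype.card_fin, ← pow_mul, ← pow_add]
          exact (Nat.pow_le_pow_right (by norm_num) (by omega)).trans (Nat.le_succ _))
      fun _ h => h))
    (fun y k => outN (fun h => 2 ^ (2 * h)) f h (l h) y (k.1, k.2.1, k.2.2))
    (fun z => 2 ^ h * cntN (fun h => 2 ^ (2 * h)) (fun h => b h ^ 7 * 2 ^ t (10 * h)) f h z ≤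
      (2 ^ (2 * h)) ^ 4 * (b h ^ 7 * 2 ^ t (10 * h)))
    (univ.filter fun y => ¬ K U (e [bin (2 * h) y]) ≤ 2 * h - 2) (by
      have q1 := card_filter_add_card_filter_not (s := univ)
        fun y : Fin (2 ^ (2 * h)) => K U (e [bin (2 * h) y]) ≤ 2 * h - 2
      have q2 := not_le.1 fun q => hU.few (2 * h - 2) (Many.rel ⟨univ.filter
        fun y : Fin (2 ^ (2 * h)) => K U (e [bin (2 * h) y]) ≤ 2 * h - 2, q,
          fun y hy => (mem_filter.1 hy).2⟩ (fun y u => u = e [bin (2 * h) y])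
        (fun p hp => ⟨_, rfl, hp⟩) fun y y' u _ _ q1 q2 => Fin.ext (bin_inj y.2 y'.2
          (List.cons.inj (hi (q1.symm.trans q2))).1))
      have q3 : 2 ^ (2 * h) = 2 * 2 ^ (2 * h - 2 + 1) := by
        rw [← pow_succ']; congr 1; omega
      rw [card_univ, Fintype.card_fin] at *
      omega) (d := ⌈δ * 2 ^ t (10 * h)⌉₊) fun y hy i j => by
      have q1 := hc (10 * h) (X (l h).1 h y i) (X (l h).2 h y j) (bin (2 * h) y)
        (by rw [X_len, X_len, bin_len]; ring) (by omega)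
      generalize hv : prof (fun l => K U (e l)) (X (l h).1 h y i) (X (l h).2 h y j)
        (bin (2 * h) y) = v at q1
      obtain ⟨q, q2, q3⟩ := digs_surj (b h) v fun x hx => by
        rw [← hv] at hx
        simp only [prof, List.mem_cons, List.not_mem_nil, or_false] at hx
        rw [hb]
        rcases hx with rfl | rfl | rfl | rfl | rfl | rfl | rfl <;>
          exact Nat.lt_succ_of_le (h₀ (4 * h) _ (by simp) (by simp [X_len, bin_len] <;> omega))
      rw [show v.length = 7 from hv ▸ rfl] at q2 q3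
      choose ρ ρ1 ρ2 using fun r : Fin (t (10 * h)) → Bool => bin_surj r
      refine Nat.ceil_le.2 (q1.trans (Nat.cast_le.2 ?_))
      rw [← Set.ncard_coe_finset]
      refine Set.ncard_le_ncard_of_injOn (fun r => ⟨ρ r + 2 ^ t (10 * h) * q, by
        nlinarith [ρ1 r]⟩) (fun r hr => ?_) fun r _ r' _ e => List.ofFn_injective (by
          rw [← ρ2, ← ρ2, Nat.add_right_cancel (congrArg Fin.val e)])
      have q4 : outN (fun h => 2 ^ (2 * h)) f h (l h) y (i, j, ρ r + 2 ^ t (10 * h) * q) =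
          A ((X (l h).1 h y i, X (l h).2 h y j, v), List.ofFn r) := by
        simp only [outN, f, X, Nat.add_mul_mod_self_left, Nat.mod_eq_of_lt (ρ1 r), ρ2,
          Nat.add_mul_div_left _ _ (Nat.two_pow_pos _), Nat.div_eq_of_lt (ρ1 r), zero_add, q3]
      simp only [coe_filter, mem_univ, true_and, Set.mem_ofPred_eq, q4] at hr ⊢
      generalize A ((X (l h).1 h y i, X (l h).2 h y j, v), List.ofFn r) = z at hr ⊢
      rw [← hv] at hr
      simp only [prof, List.forall₂_cons] at hr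
      have q5 := (p3 _ _ hr.2.2.1).1
      have q6 := (p3 _ _ hr.2.2.2.2.1).2
      have q7 := (p3 _ _ hr.2.2.2.2.2.1).2
      have q8 := h₁ h y i
      have q9 := h₂ h y j
      refine ⟨by omega, by omega, not_lt.1 fun q => ?_⟩
      have q10 := h₃ h [h] _ h le_rfl (by simp) (by omega) ⟨z, (w3 z).2 q, rfl⟩ fun q => heavy
        (fun (k : Fin (2 ^ (2 * h)) × Fin (2 ^ (2 * h)) × Fin (b h ^ 7 * 2 ^ t (10 * h)))
          (u w : Fin (2 ^ (2 * h))) => f h (k.1, k.2.1, k.2.2) u w) (2 ^ h)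
        (q.rel (fun u z => u = e [z]) (fun u ⟨z, h1, h2⟩ => ⟨z, h2, by
          simpa only [Fintype.card_fin, cntN_eq] using (w3 z).1 h1⟩)
          fun _ _ _ _ _ h1 h2 => h1.trans h2.symm)
      have q11 := (mem_filter.1 hy).2
      rw [add_mul, add_mul, add_mul, mul_assoc, add_mul] at p2
      omega
  rw [← collN_eq (N := fun h => 2 ^ (2 * h)) (K := fun h => b h ^ 7 * 2 ^ t (10 * h)),
    Fintype.card_fin] at key
  have k1 := l2 h
  have k2 : 2 ^ h ≤ 2 ^ (2 * h) := Nat.pow_le_pow_right (by norm_num) (by omega)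
  have k3 : 0 < 2 ^ (2 * h) := by positivity
  generalize collN (fun h => 2 ^ (2 * h)) (fun h => b h ^ 7 * 2 ^ t (10 * h)) f h (l h) = V at *
  generalize 2 ^ (2 * h) = N at *
  have k4 : 2 ^ h * ⌈δ * 2 ^ t (10 * h)⌉₊ ^ 2 ≤
      192 * (2 ^ (L + 1)) ^ 2 * (b h ^ 7 * 2 ^ t (10 * h)) ^ 2 := by
    refine Nat.le_of_mul_le_mul_right ?_ (pow_pos k3 6)
    calc _ ≤ 2 ^ h * (64 * (2 ^ (L + 1)) ^ 2 * N * V) := by
          rw [mul_assoc]; exact Nat.mul_le_mul_left _ key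
      _ = 64 * (2 ^ (L + 1)) ^ 2 * N * (2 ^ h * V) := by ring
      _ ≤ 64 * (2 ^ (L + 1)) ^ 2 * N * (N ^ 4 * (b h ^ 7 * 2 ^ t (10 * h)) ^ 2 * (2 * N + N)) :=
        Nat.mul_le_mul_left _ (k1.trans (by gcongr))
      _ = _ := by ring
  have k5 : 192 * (2 ^ (L + 1)) ^ 2 * b h ^ 14 ≤
      2 ^ ((2 * (c₁ + c₂ + 12 * ⌈c⌉₊) + c₃ + 14 * (4 * c₀ + 2) + 10) * lg h) := by
    have q1 : b h ≤ 2 ^ (4 * c₀ + 1 + lg h) := le_trans (by rw [hb]; dsimp only; nlinarith)
      (lin_lt (4 * c₀ + 1) h).le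
    calc _ ≤ 2 ^ 8 * (2 ^ (L + 1)) ^ 2 * (2 ^ (4 * c₀ + 1 + lg h)) ^ 14 := by gcongr; norm_num
      _ = 2 ^ (8 + (L + 1) * 2 + (4 * c₀ + 1 + lg h) * 14) := by
        rw [← pow_mul, ← pow_mul, ← pow_add, ← pow_add]
      _ ≤ _ := Nat.pow_le_pow_right (by norm_num) (by rw [hL]; nlinarith)
  have k6 : (2 : ℝ) ^ h * ⌈δ * 2 ^ t (10 * h)⌉₊ ^ 2 ≤ 2 ^ ((2 * (c₁ + c₂ + 12 * ⌈c⌉₊) + c₃ +
      14 * (4 * c₀ + 2) + 10) * lg h) * (2 ^ t (10 * h)) ^ 2 := by
    exact_mod_cast k4.trans ((le_of_eq (by ring)).trans (Nat.mul_le_mul_right _ k5))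
  have k7 := mul_le_mul_of_nonneg_left (pow_le_pow_left₀ (by positivity)
    (Nat.le_ceil (δ * 2 ^ t (10 * h))) 2) (show (0 : ℝ) ≤ 2 ^ h by positivity)
  have k8 := mul_lt_mul_of_pos_right (h2.trans_le (mul_le_mul_of_nonneg_right (min_le_left _ _)
    (by positivity))) (show (0 : ℝ) < (2 ^ t (10 * h)) ^ 2 by positivity)
  rw [mul_pow] at k7
  linarith

end Pool.Agent.Results.MP_eed1a0_lc.No
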